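import Pool.Agent.H72.HR.CAL
import Pool.Agent.H65.PK.Targets

/-!
# From lists of generating derivations to the chain, with different numbers of points
-/

set_option autoImplicit false

open Module

namespace Pool.Agent.H69.PKER

open Pool.Agent.H72.HR Pool.Agent.H65.PK

section
variable {σ ι ρ : Type} [Fintype σ] [DecidableEq σ] (κ : σ → Bool)
  (o : ι → σ → ℂ) (γ : (ρ → ℤ) → σ → ℂ) (P : MvPolynomial σ ℂ)

/-- translates of iterated derivatives in the generating directions -/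
def gen (A : ρ → ℕ) (B : ℕ) : Set (MvPolynomial σ ℂ) :=
  {f | ∃ s : ρ → ℤ, (∀ i, 0 ≤ s i ∧ s i ≤ A i) ∧ ∃ l : List ι, l.length ≤ B ∧
    f = tr κ (γ s) (l.foldr (fun a f => dv κ (o a) f) P)}

omit [Fintype σ] [DecidableEq σ] in
theorem gen_mono {A A' : ρ → ℕ} {B B' : ℕ} (hA : ∀ i, A i ≤ A' i) (hB : B ≤ B') :
    gen κ o γ P A B ⊆ gen κ o γ P A' B' := by
  rintro f ⟨s, hs, l, hl, rfl⟩
  refine ⟨s, fun i => ⟨(hs i).1, (hs i).2.trans (by exact_mod_cast hA i)⟩, l, hl.trans hB, rfl⟩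

theorem dv_zero' (f : MvPolynomial σ ℂ) : dv κ (0 : σ → ℂ) f = 0 := by
  have := dv_smul κ (0 : ℂ) (0 : σ → ℂ) f
  simpa using this

theorem dv_gen {A : ρ → ℕ} {B : ℕ} {w : σ → ℂ} (hw : w ∈ Submodule.span ℂ (Set.range o))
    {f : MvPolynomial σ ℂ} (hf : f ∈ Submodule.span ℂ (gen κ o γ P A B)) :
    dv κ w f ∈ Submodule.span ℂ (gen κ o γ P A (B + 1)) := by
  induction hw using Submodule.span_induction with
  | mem x hx =>
    obtain ⟨i, rfl⟩ := hx
    induction hf using Submodule.span_induction with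
    | mem y hy =>
      obtain ⟨s, hs, l, hl, rfl⟩ := hy
      apply Submodule.subset_span
      refine ⟨s, hs, i :: l, by simpa using hl, ?_⟩
      rw [dv_tr]
      rfl
    | zero => simp
    | add y z _ _ hy hz => rw [map_add]; exact Submodule.add_mem _ hy hz
    | smul c y _ hy => rw [Derivation.map_smul]; exact Submodule.smul_mem _ _ hy
  | zero => rw [dv_zero']; exact Submodule.zero_mem _
  | add x y _ _ hx hy => rw [dv_add]; exact Submodule.add_mem _ hx hy
  | smul c x _ hx => rw [dv_smul]; exact Submodule.smul_mem _ _ hx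

theorem DW_gen {A : ρ → ℕ} {B : ℕ} {L : Submodule ℂ (MvPolynomial σ ℂ)}
    (hL : L ≤ Submodule.span ℂ (gen κ o γ P A B)) (a : ℕ) :
    DW κ (Submodule.span ℂ (Set.range o)) L a ≤ Submodule.span ℂ (gen κ o γ P A (B + a)) := by
  induction a with
  | zero => exact hL
  | succ a ih =>
    rw [DW]
    apply sup_le
    · exact ih.trans (Submodule.span_mono (gen_mono κ o γ P (fun _ => le_rfl) (by omega)))
    · rw [Submodule.span_le]
      rintro f ⟨w, hw, f', hf', rfl⟩
      exact dv_gen κ o γ P hw (ih hf')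

theorem tr_gen (hγ : ∀ s s', γ (s + s') = γ s + γ s') {A M : ρ → ℕ} {B : ℕ} {s' : ρ → ℤ}
    (hs' : ∀ i, 0 ≤ s' i ∧ s' i ≤ M i) {f : MvPolynomial σ ℂ}
    (hf : f ∈ Submodule.span ℂ (gen κ o γ P A B)) :
    tr κ (γ s') f ∈ Submodule.span ℂ (gen κ o γ P (fun i => A i + M i) B) := by
  induction hf using Submodule.span_induction with
  | mem y hy =>
    obtain ⟨s, hs, l, hl, rfl⟩ := hy
    apply Submodule.subset_span
    refine ⟨s' + s, fun i => ⟨?_, ?_⟩, l, hl, ?_⟩
    · exact add_nonneg (hs' i).1 (hs i).1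
    · have h1 := (hs' i).2
      have h2 := (hs i).2
      push_cast
      rw [Pi.add_apply]
      linarith
    · rw [tr_tr, hγ]
  | zero => rw [map_zero]; exact Submodule.zero_mem _
  | add y z _ _ hy hz => rw [map_add]; exact Submodule.add_mem _ hy hz
  | smul c y _ hy => rw [map_smul]; exact Submodule.smul_mem _ _ hy

theorem TL_gen (hγ : ∀ s s', γ (s + s') = γ s + γ s') {A M : ρ → ℕ} {B : ℕ}
    {L : Submodule ℂ (MvPolynomial σ ℂ)} (hL : L ≤ Submodule.span ℂ (gen κ o γ P A B)) :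
    TL κ (γ '' {s | ∀ i, 0 ≤ s i ∧ s i ≤ M i}) L ≤
      Submodule.span ℂ (gen κ o γ P (fun i => A i + M i) B) := by
  rw [TL, Submodule.span_le]
  rintro f ⟨g, ⟨s', hs', rfl⟩, f', hf', rfl⟩
  exact tr_gen κ o γ P hγ hs' (hL hf')

theorem chn_gen (hγ : ∀ s s', γ (s + s') = γ s + γ s') (S : ℕ) (M : ρ → ℕ) (n : ℕ) :
    chn κ (Submodule.span ℂ (Set.range o)) (γ '' {s | ∀ i, 0 ≤ s i ∧ s i ≤ M i}) S P n ≤
      Submodule.span ℂ (gen κ o γ P (fun i => n * M i) (n * S)) := by
  induction n with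
  | zero =>
    rw [chn]
    apply Submodule.span_mono
    rintro f hf
    rw [Set.mem_singleton_iff] at hf
    have h0 : γ 0 = 0 := by
      have := hγ 0 0
      rw [add_zero] at this
      exact left_eq_add.1 this
    refine ⟨0, fun i => ⟨le_rfl, by simp⟩, [], by simp, ?_⟩
    rw [h0, tr_zero, hf]
    rfl
  | succ n ih =>
    rw [chn, Nat.succ_mul, show (fun i => (n + 1) * M i) = fun i => n * M i + M i from
      funext fun i => Nat.succ_mul n (M i)]
    exact DW_gen κ o γ P (TL_gen κ o γ P hγ ih) S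

end

theorem pf_CHW (_hCAL : Pool.Agent.H72.HR.T_CAL) : T_CHW := by
  intro σ ι ρ _ _ _ κ o γ S M P hγ n hP f hf
  have h := chn_gen κ o γ P hγ S M n hf
  clear hf
  induction h using Submodule.span_induction with
  | mem y hy =>
    obtain ⟨s, hs, l, hl, rfl⟩ := hy
    rw [eval_tr, add_zero]
    exact hP s (fun i => ⟨(hs i).1, by have := (hs i).2; exact_mod_cast this⟩) l hl
  | zero => rw [map_zero]
  | add y z _ _ hy hz => rw [map_add, hy, hz, add_zero]
  | smul c y _ hy => rw [MvPolynomial.smul_eval, hy, mul_zero]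

end Pool.Agent.H69.PKER
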